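import Pool.Agent.Y926.KS.Main

/-!
# The counterexample
-/

open Set Module Submodule Pool.Agent.Helper236

namespace Pool.Agent.Y926.KS

/-- the point from which we project -/
def pt {F : Type} [Field F] (k : ℕ) (w : F) : Fin 2 ⊕ Fin k → F := Sum.elim ![1, w] 0

section

variable {F : Type} [Field F] [Algebra (ZMod 2) F] {k : ℕ} {w : F}

theorem zmod2 (a : ZMod 2) : a = 0 ∨ a = 1 := by
  fin_cases a
  · left; rfl
  · right; rfl

/-- a relation between two vectors -/
theorem pair_rel (hw : w ∉ Set.range (algebraMap (ZMod 2) F)) {x y : Fin 2 ⊕ Fin k → ZMod 2} (hxy : x ≠ y)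
    (hx : ∃ j, x (Sum.inr j) ≠ 0) (hy : ∃ j, y (Sum.inr j) ≠ 0) {s t c : F}
    (h : c • pt k w = s • bc (ZMod 2) F x + t • bc (ZMod 2) F y) : s = 0 ∧ t = 0 := by
  have h0 : ∀ j, 0 = s * algebraMap (ZMod 2) F (x (Sum.inr j)) + t * algebraMap (ZMod 2) F (y (Sum.inr j)) := by
    intro j
    have := congrFun h (Sum.inr j)
    simpa [pt] using this
  have e0 : c = s * algebraMap (ZMod 2) F (x (Sum.inl 0)) + t * algebraMap (ZMod 2) F (y (Sum.inl 0)) := by
    have := congrFun h (Sum.inl 0)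
    simpa [pt] using this
  have e1 : c * w = s * algebraMap (ZMod 2) F (x (Sum.inl 1)) + t * algebraMap (ZMod 2) F (y (Sum.inl 1)) := by
    have := congrFun h (Sum.inl 1)
    simpa [pt] using this
  by_cases hA : ∃ j, x (Sum.inr j) ≠ y (Sum.inr j)
  · obtain ⟨j, hj⟩ := hA
    have hj0 := h0 j
    rcases zmod2 (x (Sum.inr j)) with h1 | h1 <;> rcases zmod2 (y (Sum.inr j)) with h2 | h2
    · exact absurd (h1.trans h2.symm) hj
    · rw [h1, h2, map_zero, map_one, mul_zero, mul_one, zero_add] at hj0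
      obtain ⟨i, hi⟩ := hx
      have hi0 := h0 i
      rw [(zmod2 _).resolve_left hi, ← hj0, map_one, mul_one, zero_mul, add_zero] at hi0
      exact ⟨hi0.symm, hj0.symm⟩
    · rw [h1, h2, map_zero, map_one, mul_zero, mul_one, add_zero] at hj0
      obtain ⟨i, hi⟩ := hy
      have hi0 := h0 i
      rw [(zmod2 _).resolve_left hi, ← hj0, map_one, mul_one, zero_mul, zero_add] at hi0
      exact ⟨hj0.symm, hi0.symm⟩
    · exact absurd (h1.trans h2.symm) hj
  · push Not at hA
    obtain ⟨j, hj⟩ := hx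
    have hj0 := h0 j
    rw [← hA j, (zmod2 _).resolve_left hj, map_one, mul_one, mul_one] at hj0
    have ht : t = -s := by linear_combination -hj0
    obtain ⟨a, ha⟩ : ∃ a, a = x (Sum.inl 0) - y (Sum.inl 0) := ⟨_, rfl⟩
    obtain ⟨b, hb⟩ : ∃ b, b = x (Sum.inl 1) - y (Sum.inl 1) := ⟨_, rfl⟩
    have f0 : c = s * algebraMap (ZMod 2) F a := by rw [ha, map_sub, e0, ht]; ring
    have f1 : c * w = s * algebraMap (ZMod 2) F b := by rw [hb, map_sub, e1, ht]; ring
    have hs : s = 0 := by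
      by_contra hs
      have h3 : algebraMap (ZMod 2) F a * w = algebraMap (ZMod 2) F b := by
        have : s * (algebraMap (ZMod 2) F a * w - algebraMap (ZMod 2) F b) = 0 := by
          rw [f0] at f1
          linear_combination f1
        exact sub_eq_zero.1 ((mul_eq_zero.1 this).resolve_left hs)
      rcases zmod2 a with h4 | h4
      · rw [h4, map_zero, zero_mul] at h3
        have h5 : b = 0 := by
          have := (algebraMap (ZMod 2) F).injective (h3.symm.trans (map_zero _).symm)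
          exact this
        apply hxy
        funext i
        rcases i with i | i
        · fin_cases i
          · exact sub_eq_zero.1 (ha.symm.trans h4)
          · exact sub_eq_zero.1 (hb.symm.trans h5)
        · exact hA i
      · rw [h4, map_one, one_mul] at h3
        exact hw ⟨b, h3.symm⟩
    exact ⟨hs, by rw [ht, hs, neg_zero]⟩

/-- the points off the line -/
theorem PM_pairs (hw : w ∉ Set.range (algebraMap (ZMod 2) F)) :
    PairsIndep (PM (ZMod 2) F (pt k w)) {x | ∃ j, x (Sum.inr j) ≠ 0} := by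
  refine ⟨subset_univ _, fun x hx y hy => ?_⟩
  refine (PM_rep (ZMod 2) F (pt k w) _ (subset_univ _)).2 ?_
  by_cases hxy : x = y
  · rw [hxy, pair_eq_singleton, linearIndepOn_singleton_iff, pr_apply, mkQ_apply, Ne, Quotient.mk_eq_zero,
      mem_span_singleton]
    rintro ⟨c, hc⟩
    obtain ⟨j, hj⟩ := hy
    have h1 := congrFun hc (Sum.inr j)
    rw [bc_apply, (zmod2 _).resolve_left hj, map_one] at h1
    simp [pt] at h1
  · rw [LinearIndepOn.pair_iff _ hxy]
    intro s t hst
    have hst' : (span F {pt k w}).mkQ (s • bc (ZMod 2) F x + t • bc (ZMod 2) F y) = 0 := by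
      rw [map_add, map_smul, map_smul]
      exact hst
    rw [mkQ_apply, Quotient.mk_eq_zero, mem_span_singleton] at hst'
    obtain ⟨c, hc⟩ := hst'
    exact pair_rel hw hxy hx hy hc

theorem PM_count : 2 ^ (k + 2) ≤ Set.ncard {x : Fin 2 ⊕ Fin k → ZMod 2 | ∃ j, x (Sum.inr j) ≠ 0} + 4 := by
  have h1 : ({x : Fin 2 ⊕ Fin k → ZMod 2 | ∃ j, x (Sum.inr j) ≠ 0}ᶜ).ncard ≤ 4 := by
    have h2 : {x : Fin 2 ⊕ Fin k → ZMod 2 | ∃ j, x (Sum.inr j) ≠ 0}ᶜ ⊆
        Set.range (fun u : Fin 2 → ZMod 2 => (Sum.elim u 0 : Fin 2 ⊕ Fin k → ZMod 2)) := by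
      intro x hx
      rw [mem_compl_iff, Set.mem_ofPred_eq] at hx
      push Not at hx
      refine ⟨fun i => x (Sum.inl i), ?_⟩
      funext i
      rcases i with i | i
      · rfl
      · exact (hx i).symm
    refine (ncard_le_ncard h2 (Set.toFinite _)).trans ?_
    rw [← image_univ]
    refine (ncard_image_le (Set.toFinite _)).trans ?_
    rw [ncard_univ, Nat.card_fun, Nat.card_fin, Nat.card_zmod]
    norm_num
  have h3 := ncard_add_ncard_compl {x : Fin 2 ⊕ Fin k → ZMod 2 | ∃ j, x (Sum.inr j) ≠ 0}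
  rw [Nat.card_fun, Nat.card_sum, Nat.card_fin, Nat.card_fin, Nat.card_zmod, add_comm 2 k] at h3
  omega

variable [Finite F]

/-- the rank -/
theorem PM_rank (k : ℕ) (w : F) : (PM (ZMod 2) F (pt k w)).eRank = (k + 1 : ℕ) := by
  have hM : (PM (ZMod 2) F (pt k w)).Finite := linMatroid_finite _ _ _
  have h3 := Rep.rk_eq (PM_rep (ZMod 2) F (pt k w)) (X := (PM (ZMod 2) F (pt k w)).E) subset_rfl
  rw [rk, Matroid.eRk_ground] at h3
  have h5 : (PM (ZMod 2) F (pt k w)).eRank ≠ ⊤ := by
    rw [Matroid.eRank_ne_top_iff]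
    infer_instance
  rw [← ENat.natCast_toNat h5, h3]
  congr 1
  have h6 : span F (pr (ZMod 2) F (pt k w) '' (PM (ZMod 2) F (pt k w)).E) = ⊤ := by
    have h7 : span F (bc (ZMod 2) F '' (univ : Set (Fin 2 ⊕ Fin k → ZMod 2))) = ⊤ := by
      rw [eq_top_iff, ← (Pi.basisFun F (Fin 2 ⊕ Fin k)).span_eq, span_le]
      rintro _ ⟨i, rfl⟩
      refine subset_span ⟨Pi.single i 1, mem_univ _, ?_⟩
      funext j
      rw [bc_apply, Pi.basisFun_apply]
      by_cases hij : j = i
      · subst hij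
        simp
      · simp [hij]
    have h8 : pr (ZMod 2) F (pt k w) '' (PM (ZMod 2) F (pt k w)).E =
        (span F {pt k w}).mkQ '' (bc (ZMod 2) F '' univ) := by
      rw [← image_comp]
      rfl
    rw [h8, ← map_span, h7, Submodule.map_top, range_mkQ]
  rw [h6, finrank_top]
  have h9 := (span F {pt k w}).finrank_quotient_add_finrank
  have h10 : pt k w ≠ 0 := by
    intro h
    have := congrFun h (Sum.inl 0)
    simp [pt] at this
  rw [finrank_span_singleton h10, finrank_fintype_fun_eq_card, Fintype.card_sum, Fintype.card_fin,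
    Fintype.card_fin] at h9
  omega

end

/-- the projected geometries lie in the class -/
theorem PM_class {q : ℕ} (hq : 4 ≤ q) (n : ℕ) (hn : 1 ≤ n) : ∃ k ∈ sizes q (Big q) n, 2 ^ (n + 1) ≤ k + 4 := by
  obtain ⟨j, rfl⟩ : ∃ j, n = j + 1 := ⟨n - 1, by omega⟩
  have hc : Nat.card (GaloisField 2 2) = 4 := by
    rw [GaloisField.card 2 2 (by norm_num)]
    norm_num
  have hfin : Finite (GaloisField 2 2) := Nat.finite_of_card_ne_zero (by omega)
  obtain ⟨w, hw⟩ : ∃ w : GaloisField 2 2, w ∉ Set.range (algebraMap (ZMod 2) (GaloisField 2 2)) := by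
    by_contra hcon
    push Not at hcon
    have h1 : Nat.card (GaloisField 2 2) ≤ Nat.card (ZMod 2) :=
      Nat.card_le_card_of_surjective _ hcon
    rw [hc, Nat.card_zmod] at h1
    omega
  let M := PM (ZMod 2) (GaloisField 2 2) (pt j w)
  have hM : M.Finite := linMatroid_finite _ _ _
  refine ⟨points M, ⟨_, M, rep_inU (by omega) hM (PM_rep _ _ _), ?_, PM_rank j w, rfl⟩, ?_⟩
  · rintro N hN β K ⟨-, m, X, hm, hX, hXm⟩ hiso
    obtain ⟨X', h1, h2, h3⟩ := iso_transport hiso hX hm
    have h4 := PM_minor (ZMod 2) (GaloisField 2 2) (pt j w) hN h1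
    have h5 : rk N N.E ≤ m := by
      rw [rk, Matroid.eRk_ground]
      exact ENat.toNat_le_of_le_natCast h3
    rw [Nat.card_zmod] at h4
    have h6 : 2 ^ (rk N N.E + 1) ≤ 2 ^ (m + 1) := Nat.pow_le_pow_right (by norm_num) (by omega)
    omega
  · have h1 := card_le_points hM (PM_pairs hw (k := j))
    have h2 := PM_count (k := j)
    have h3 : j + 1 + 1 = j + 2 := rfl
    rw [h3]
    omega

theorem orders_big {q : ℕ} (hq : 4 ≤ q) : IsGreatest (orders q (Big q)) 2 := by
  refine ⟨⟨Nat.prime_two.isPrimePow, by omega, fun α M h => big_not_binary h⟩, fun r hr => ?_⟩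
  by_contra hc
  obtain ⟨α, M, h1, h2⟩ := big_affine hr.1 (by omega) hr.2.1
  exact hr.2.2 α M h1 h2

/-- the main theorem -/
theorem main (q : ℕ) (hq : 4 ≤ q) : ∃ C : (α : Type) → Matroid α → Prop,
    (∀ (α : Type) (M : Matroid α), C α M → InU q M) ∧ IsGreatest (orders q C) 2 ∧
    ∀ n : ℕ, 1 ≤ n → ∃ k ∈ sizes q C n, 2 ^ (n + 1) ≤ k + 4 :=
  ⟨Big q, fun _ _ h => h.1, orders_big hq, fun n hn => PM_class hq n hn⟩

end Pool.Agent.Y926.KS
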