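import Pool.Agent.Helper236.Lin

/-!
# Lemmas on representable matroids and projections of binary matroids
-/

open Set Module Submodule Pool.Agent.Helper236

namespace Pool.Agent.Y926.KS

section general

variable {α F W : Type*} [Field F] [AddCommGroup W] [Module F W]

theorem finrank_map_inf_ker {V : Type*} [AddCommGroup V] [Module F V] (S : Submodule F W)
    [FiniteDimensional F S] (f : W →ₗ[F] V) :
    finrank F (S.map f) + finrank F (S ⊓ LinearMap.ker f : Submodule F W) = finrank F S := by
  have h := LinearMap.finrank_range_add_finrank_ker (f.domRestrict S)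
  rw [LinearMap.range_domRestrict, LinearMap.ker_domRestrict] at h
  have h2 : finrank F (Submodule.comap S.subtype (LinearMap.ker f)) =
      finrank F (S ⊓ LinearMap.ker f : Submodule F W) := by
    rw [← Submodule.map_comap_subtype]
    exact (LinearEquiv.finrank_eq (Submodule.equivMapOfInjective S.subtype S.subtype_injective _))
  rw [← h2]
  exact h

/-- all pairs (and all elements) of `X` are independent -/
def PairsIndep (M : Matroid α) (X : Set α) : Prop := X ⊆ M.E ∧ ∀ e ∈ X, ∀ f ∈ X, M.Indep {e, f}

theorem rk_def' (M : Matroid α) : rk M M.E = M.eRank.toNat := by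
  rw [rk, Matroid.eRk_ground]

/-- elements with all pairs independent are represented by distinct nonzero vectors -/
theorem Rep.pairs_ne {M : Matroid α} {w : α → W} (h : Rep F M w) {X : Set α} (hX : PairsIndep M X) :
    (∀ e ∈ X, w e ≠ 0) ∧ Set.InjOn w X := by
  constructor
  · intro e he h0
    have h1 := (h {e, e} (by simpa using hX.1 he)).1 (hX.2 e he e he)
    rw [pair_eq_singleton] at h1
    exact h1.ne_zero (mem_singleton e) h0
  · intro e he f hf hef
    by_contra hne
    have h1 := (h {e, f} (insert_subset (hX.1 he) (singleton_subset_iff.2 (hX.1 hf)))).1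
      (hX.2 e he f hf)
    have h2 := h1.linearIndependent.injective
    have h3 : (⟨e, by simp⟩ : ({e, f} : Set α)) = ⟨f, by simp⟩ := h2 (by simpa using hef)
    exact hne (by simpa using h3)

/-- the number of elements with all pairs independent is bounded by the number of nonzero vectors -/
theorem card_le_of_mem {M : Matroid α} {w : α → W} (h : Rep F M w) {X : Set α} (hX : PairsIndep M X)
    {A : Set W} (hA : A.Finite) (h0 : (0 : W) ∈ A) (hXA : ∀ e ∈ X, w e ∈ A) :
    X.ncard + 1 ≤ A.ncard := by
  obtain ⟨h1, h2⟩ := Rep.pairs_ne h hX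
  have h3 : w '' X ⊆ A \ {0} := by
    rintro _ ⟨e, he, rfl⟩
    exact ⟨hXA e he, by simpa using h1 e he⟩
  have h4 : (w '' X).ncard = X.ncard := h2.ncard_image
  have h5 : (w '' X).ncard ≤ (A \ {0}).ncard := ncard_le_ncard h3 (hA.subset sdiff_subset)
  have h6 := ncard_sdiff_singleton_add_one h0 hA
  omega

theorem ncard_submodule [Finite F] (S : Submodule F W) [FiniteDimensional F S] :
    (S : Set W).ncard = Nat.card F ^ finrank F S := by
  rw [← Nat.card_coe_set_eq]
  exact Module.natCard_eq_pow_finrank (K := F) (V := S)

/-- a line in a matroid represented over a field has at most `|F| + 1` points -/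
theorem line_bound [Finite F] {M : Matroid α} {w : α → W} (h : Rep F M w) {m : ℕ}
    (hc : M.E.ncard = m) (hm : 2 ≤ m) (hI : ∀ I ⊆ M.E, M.Indep I ↔ I.encard ≤ 2) : m ≤ Nat.card F + 1 := by
  classical
  have hfin : M.E.Finite := Set.finite_of_ncard_pos (by omega)
  have : Finite M.E := hfin
  obtain ⟨x0, hx0, x1, hx1, hne⟩ := Set.one_lt_ncard_iff_nontrivial.1 (show 1 < M.E.ncard by omega)
  have hpair : ∀ x ∈ M.E, ∀ y ∈ M.E, x ≠ y → LinearIndepOn F w {x, y} := by
    intro x hx y hy hxy
    refine (h _ (insert_subset hx (singleton_subset_iff.2 hy))).1 ((hI _ (insert_subset hx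
      (singleton_subset_iff.2 hy))).2 ?_)
    rw [encard_pair hxy]
  have hco : ∀ x ∈ M.E, x ≠ x0 → ∃ a b : F, b ≠ 0 ∧ w x = a • w x0 + b • w x1 := by
    intro x hx hxx
    have h1 : w x ∈ span F (w '' {x0, x1}) := by
      by_contra hn
      have h2 := (hpair x0 hx0 x1 hx1 hne).insert hn
      have h3 : M.Indep (insert x {x0, x1}) :=
        (h _ (insert_subset hx (insert_subset hx0 (singleton_subset_iff.2 hx1)))).2 h2
      have h4 := (hI _ (insert_subset hx (insert_subset hx0 (singleton_subset_iff.2 hx1)))).1 h3
      have hxn : x ∉ ({x0, x1} : Set α) := by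
        rintro (rfl | h5)
        · exact hxx rfl
        · rw [mem_singleton_iff] at h5
          subst h5
          exact hn (subset_span ⟨x, by simp, rfl⟩)
      rw [encard_insert_of_notMem hxn, encard_pair hne] at h4
      norm_num at h4
    rw [image_pair, mem_span_pair] at h1
    obtain ⟨a, b, hab⟩ := h1
    refine ⟨a, b, ?_, hab.symm⟩
    rintro rfl
    rw [zero_smul, add_zero] at hab
    have h2 := hpair x hx x0 hx0 hxx
    rw [LinearIndepOn.pair_iff _ hxx] at h2
    have := h2 1 (-a) (by rw [← hab]; simp)
    exact one_ne_zero this.1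
  choose! a b hb hab using hco
  -- the quotient `a / b` is injective
  have hinj : Set.InjOn (fun x => a x / b x) (M.E \ {x0}) := by
    intro x hx y hy hxy
    by_contra hne'
    have h2 := hpair x hx.1 y hy.1 hne'
    rw [LinearIndepOn.pair_iff _ hne'] at h2
    have hbx := hb x hx.1 hx.2
    have hby := hb y hy.1 hy.2
    have h3 := h2 (b y) (-(b x)) (by
      have hxy' : a x * b y = a y * b x := by
        have : a x / b x = a y / b y := hxy
        field_simp at this
        linear_combination this
      rw [hab x hx.1 hx.2, hab y hy.1 hy.2, smul_add, smul_add, smul_smul, smul_smul, smul_smul,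
        smul_smul]
      have e1 : b y * a x = b x * a y := by linear_combination hxy'
      rw [e1, neg_mul, neg_mul, mul_comm (b y) (b x), neg_smul, neg_smul]
      abel)
    exact hby h3.1
  have h5 : (M.E \ {x0}).ncard ≤ Nat.card F := by
    rw [← hinj.ncard_image, ← Set.ncard_univ]
    exact ncard_le_ncard (subset_univ _) finite_univ
  have h6 := ncard_sdiff_singleton_add_one hx0 (Set.finite_of_ncard_pos (by omega))
  omega

end general

end Pool.Agent.Y926.KS
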