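import Pool.Agent.Y926.KS.Proj

/-!
# Dense classes of matroids without large lines
-/

open Set Module Submodule Pool.Agent.Helper236

namespace Pool.Agent.Y926.KS

/-- `M` and `N` are isomorphic: there is a bijection of the ground sets which preserves independence. -/
def Iso {α β : Type} (M : Matroid α) (N : Matroid β) : Prop :=
  ∃ e : M.E ≃ N.E, ∀ I : Set M.E, M.Indep ((↑) '' I) ↔ N.Indep ((↑) '' (e '' I))

/-- `N` is the line `U_{2,m}`: it has `m` elements, and its independent sets are the sets with at most two elements. -/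
def IsLine (m : ℕ) {α : Type} (N : Matroid α) : Prop :=
  N.E.ncard = m ∧ ∀ I ⊆ N.E, N.Indep I ↔ I.encard ≤ 2

/-- The class `U(q)`: the finite matroids without a minor `U_{2,q+2}`. -/
def InU (q : ℕ) {α : Type} (M : Matroid α) : Prop :=
  M.Finite ∧ ∀ N : Matroid α, N ≤m M → ¬ IsLine (q + 2) N

/-- The class `L(r)`: the matroids representable by vectors over a field with `r` elements. -/
def InL (r : ℕ) {α : Type} (M : Matroid α) : Prop :=
  ∃ (F : Type) (_ : Field F), Nat.card F = r ∧
    ∃ (n : ℕ) (v : α → Fin n → F), ∀ I ⊆ M.E, M.Indep I ↔ LinearIndepOn F v I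

/-- The number of points of `M`, i.e. of flats of rank one. -/
noncomputable def points {α : Type} (M : Matroid α) : ℕ := {G : Set α | M.IsFlat G ∧ M.eRk G = 1}.ncard

/-- The class of all matroids without a minor isomorphic to a member of the collection `C`. -/
def InEX (C : (α : Type) → Matroid α → Prop) {α : Type} (M : Matroid α) : Prop :=
  ∀ N : Matroid α, N ≤m M → ∀ (β : Type) (K : Matroid β), C β K → ¬ Iso N K

/-- The numbers of points of the matroids of rank `n` in `EX(C) ∩ U(q)`; their maximum is `h(n)`. -/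
def sizes (q : ℕ) (C : (α : Type) → Matroid α → Prop) (n : ℕ) : Set ℕ :=
  {k | ∃ (α : Type) (M : Matroid α), InU q M ∧ InEX C M ∧ M.eRank = n ∧ points M = k}

/-- The prime powers `r ≤ q` such that no member of `C` is representable over a field with `r` elements. -/
def orders (q : ℕ) (C : (α : Type) → Matroid α → Prop) : Set ℕ :=
  {r | IsPrimePow r ∧ r ≤ q ∧ ∀ (α : Type) (M : Matroid α), C α M → ¬ InL r M}

theorem rep_inU {α F W : Type} [Field F] [Finite F] [AddCommGroup W] [Module F W] {q : ℕ}
    (hq : Nat.card F ≤ q) {M : Matroid α} (hM : M.Finite) {w : α → W} (h : Rep F M w) : InU q M := by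
  refine ⟨hM, fun N hN hl => ?_⟩
  obtain ⟨C, D, hC, hD, -, rfl⟩ := hN.exists_eq_contract_delete_disjoint
  have h1 := line_bound (Rep.minor h C D hC) hl.1 (by omega) hl.2
  omega

theorem card_le_points {α : Type} {M : Matroid α} (hM : M.Finite) {X : Set α} (hX : PairsIndep M X) :
    X.ncard ≤ points M := by
  have h1 : Set.InjOn (fun e => M.closure {e}) X := by
    intro e he f hf hef
    by_contra hne
    have h2 := (hX.2 e he f hf).notMem_closure_sdiff_of_mem (mem_insert e {f})
    have h3 : ({e, f} : Set α) \ {e} = {f} := by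
      rw [insert_sdiff_of_mem _ (mem_singleton e), sdiff_singleton_eq_self]
      simpa using hne
    rw [h3] at h2
    apply h2
    have h4 : M.closure {e} = M.closure {f} := hef
    rw [← h4]
    exact M.mem_closure_self e (hX.1 he)
  rw [← h1.ncard_image, points]
  refine ncard_le_ncard ?_ ?_
  · rintro _ ⟨e, he, rfl⟩
    refine ⟨M.isFlat_closure _, ?_⟩
    have h2 := hX.2 e he e he
    rw [pair_eq_singleton] at h2
    change M.eRk (M.closure {e}) = 1
    rw [Matroid.eRk_closure_eq, h2.eRk_eq_encard, encard_singleton]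
  · exact (M.ground_finite.powerset).subset fun G hG => hG.1.subset_ground

/-- transport along an isomorphism -/
theorem iso_transport {α β : Type} {N : Matroid α} {K : Matroid β} (h : Iso N K) {X : Set β}
    (hX : PairsIndep K X) {m : ℕ} (hm : K.eRank ≤ m) :
    ∃ X' : Set α, PairsIndep N X' ∧ X'.ncard = X.ncard ∧ N.eRank ≤ m := by
  obtain ⟨e, he⟩ := h
  refine ⟨(↑) '' (e.symm '' ((↑) ⁻¹' X : Set K.E)), ⟨?_, ?_⟩, ?_, ?_⟩
  · rintro _ ⟨a, -, rfl⟩
    exact a.2
  · rintro _ ⟨_, ⟨a, ha, rfl⟩, rfl⟩ _ ⟨_, ⟨b, hb, rfl⟩, rfl⟩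
    have h1 := he {e.symm a, e.symm b}
    rw [image_pair, image_pair, image_pair, e.apply_symm_apply, e.apply_symm_apply] at h1
    exact h1.2 (hX.2 a ha b hb)
  · rw [ncard_image_of_injective _ Subtype.val_injective, ncard_image_of_injective _ e.symm.injective,
      ncard_preimage_of_injective_subset_range Subtype.val_injective]
    rw [Subtype.range_coe]
    exact hX.1
  · obtain ⟨B, hB⟩ := N.exists_isBase
    have h1 := he ((↑) ⁻¹' B)
    have h2 : ((↑) '' ((↑) ⁻¹' B : Set N.E) : Set α) = B := by
      rw [Subtype.image_preimage_coe]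
      exact inter_eq_self_of_subset_right hB.subset_ground
    rw [h2] at h1
    have h3 := (h1.1 hB.indep).encard_le_eRank
    rw [Subtype.val_injective.encard_image, e.injective.encard_image] at h3
    have h4 : ((↑) ⁻¹' B : Set N.E).encard = B.encard := by
      rw [← Subtype.val_injective.encard_image, h2]
    rw [h4, hB.encard_eq_eRank] at h3
    exact h3.trans hm

/-- the collection: matroids of rank at most `m` with at least `2 ^ (m + 1)` points -/
def Big (q : ℕ) (α : Type) (M : Matroid α) : Prop :=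
  InU q M ∧ ∃ (m : ℕ) (X : Set α), M.eRank ≤ m ∧ PairsIndep M X ∧ 2 ^ (m + 1) ≤ X.ncard

theorem big_not_binary {q : ℕ} {α : Type} {M : Matroid α} (h : Big q α M) : ¬ InL 2 M := by
  rintro ⟨F, _, hF, n, v, hv⟩
  obtain ⟨hU, m, X, hm, hX, hXm⟩ := h
  have hfin : Finite F := Nat.finite_of_card_ne_zero (by omega)
  have hM := hU.1
  have hr : Rep F M v := hv
  obtain ⟨S, hS⟩ : ∃ S, S = span F (v '' M.E) := ⟨_, rfl⟩
  have h1 : (S : Set (Fin n → F)).ncard = Nat.card F ^ finrank F S := ncard_submodule S
  have h2 := card_le_of_mem hr hX (A := (S : Set (Fin n → F))) (Set.toFinite _) (zero_mem S) (fun x hx => by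
    rw [hS]
    exact subset_span ⟨x, hX.1 hx, rfl⟩)
  have h3 := Rep.rk_eq hr (X := M.E) subset_rfl
  rw [rk, Matroid.eRk_ground, ← hS] at h3
  have h4 : finrank F S ≤ m := by
    rw [← h3]
    exact ENat.toNat_le_of_le_natCast hm
  rw [h1, hF] at h2
  have h5 : 2 ^ finrank F S ≤ 2 ^ m := Nat.pow_le_pow_right (by norm_num) h4
  have h6 : 2 ^ (m + 1) = 2 * 2 ^ m := by rw [pow_succ]; ring
  omega

/-- the affine geometry of dimension four -/
theorem big_affine {q r : ℕ} (hr : IsPrimePow r) (h2 : 2 < r) (hrq : r ≤ q) :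
    ∃ (α : Type) (M : Matroid α), Big q α M ∧ InL r M := by
  obtain ⟨p, k, hp, hk, rfl⟩ := hr
  have hp' : p.Prime := hp.nat_prime
  have := Fact.mk hp'
  have hcard : Nat.card (GaloisField p k) = p ^ k := GaloisField.card p k (by omega)
  obtain ⟨F, fF, hF⟩ : ∃ (F : Type) (_ : Field F), Nat.card F = p ^ k := ⟨GaloisField p k, inferInstance, hcard⟩
  have hfin : Finite F := Nat.finite_of_card_ne_zero (by omega)
  let v : (Fin 4 → F) → (Fin 5 → F) := fun x => Fin.cons 1 x
  let M := linMatroid F v univ finite_univ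
  have hrep : Rep F M v := linMatroid_rep _ _ _
  have hM : M.Finite := linMatroid_finite _ _ _
  refine ⟨_, M, ⟨rep_inU (by omega) hM hrep, 5, univ, ?_, ⟨subset_univ _, ?_⟩, ?_⟩, F, fF, hF, 5, v, hrep⟩
  · have h3 := Rep.rk_eq hrep (X := M.E) subset_rfl
    rw [rk, Matroid.eRk_ground] at h3
    have h4 : finrank F (span F (v '' M.E)) ≤ 5 := by
      refine (Submodule.finrank_le _).trans ?_
      rw [finrank_fintype_fun_eq_card, Fintype.card_fin]
    have h5 : M.eRank ≠ ⊤ := by
      rw [Matroid.eRank_ne_top_iff]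
      infer_instance
    rw [← ENat.natCast_toNat h5, h3]
    exact_mod_cast h4
  · intro x _ y _
    refine (hrep _ (subset_univ _)).2 ?_
    by_cases hxy : x = y
    · rw [hxy, pair_eq_singleton, linearIndepOn_singleton_iff]
      intro h0
      have := congrFun h0 0
      simp [v] at this
    · rw [LinearIndepOn.pair_iff _ hxy]
      intro s t hst
      have h0 := congrFun hst 0
      simp only [v, Pi.add_apply, Pi.smul_apply, Fin.cons_zero, smul_eq_mul, mul_one, Pi.zero_apply] at h0
      have ht : t = -s := by linear_combination h0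
      have hs : s = 0 := by
        by_contra hs
        apply hxy
        funext i
        have h1 := congrFun hst i.succ
        simp only [v, Pi.add_apply, Pi.smul_apply, Fin.cons_succ, smul_eq_mul, Pi.zero_apply] at h1
        rw [ht] at h1
        have h2 : s * (x i - y i) = 0 := by linear_combination h1
        have h3 := (mul_eq_zero.1 h2).resolve_left hs
        exact sub_eq_zero.1 h3
      exact ⟨hs, by rw [ht, hs, neg_zero]⟩
  · rw [ncard_univ, Nat.card_fun, Nat.card_fin, hF]
    calc 2 ^ (5 + 1) ≤ 3 ^ 4 := by norm_num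
      _ ≤ (p ^ k) ^ 4 := Nat.pow_le_pow_left h2 4

end Pool.Agent.Y926.KS
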