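import Pool.Agent.Y926.KS.Lem

/-!
# Projections of matroids over a subfield
-/

open Set Module Submodule Pool.Agent.Helper236

namespace Pool.Agent.Y926.KS

section tower

variable {K F : Type*} [Field K] [Field F] [Algebra K F]
variable {V W : Type*} [AddCommGroup V] [Module K V] [FiniteDimensional K V]
  [AddCommGroup W] [Module K W] [Module F W] [IsScalarTower K F W] [FiniteDimensional F W]

/-- the span of the image has at most the dimension of the span -/
theorem finrank_span_image_le (g : V →ₗ[K] W) (C : Set V) :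
    finrank F (span F (g '' C)) ≤ finrank K (span K C) := by
  let B := finBasis K (span K C)
  have h1 : span F (g '' C) ≤ span F (range fun i => g (B i)) := by
    rw [span_le]
    rintro _ ⟨c, hc, rfl⟩
    have h2 := B.sum_repr ⟨c, subset_span hc⟩
    have h3 := congrArg (fun x : span K C => g (x : V)) h2
    simp only [coe_sum, map_sum, coe_smul, map_smul] at h3
    rw [← h3]
    refine sum_mem fun i _ => ?_
    exact (span F (range fun i => g (B i))).smul_of_tower_mem _ (subset_span ⟨i, rfl⟩)
  refine (finrank_mono h1).trans ?_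
  refine (finrank_range_le_card (R := F) (b := fun i => g (B i))).trans ?_
  rw [Fintype.card_fin]

/-- dimensions in a quotient -/
theorem quot_bound (g : V →ₗ[K] W) (hg : ∀ A : Submodule K V, finrank K A ≤ finrank F (span F (g '' A)) + 1)
    (C T : Set V) :
    finrank K (span K ((span F (g '' C)).mkQ ∘ g '' T)) ≤
      finrank F (span F ((span F (g '' C)).mkQ ∘ g '' T)) + 1 := by
  obtain ⟨U, hU⟩ : ∃ U, U = span F (g '' C) := ⟨_, rfl⟩
  rw [← hU]
  obtain ⟨A, hA⟩ : ∃ A, A = span K (T ∪ C) := ⟨_, rfl⟩
  let wK : V →ₗ[K] W ⧸ U := (U.mkQ.restrictScalars K) ∘ₗ g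
  have hw : ∀ x, wK x = (U.mkQ ∘ g) x := fun x => rfl
  -- (1)
  have e1 : finrank K (span K (U.mkQ ∘ g '' T)) ≤ finrank K (A.map wK) := by
    refine finrank_mono ?_
    rw [span_le]
    rintro _ ⟨t, ht, rfl⟩
    exact ⟨t, by rw [hA]; exact subset_span (Or.inl ht), rfl⟩
  -- (2)
  have e2 := finrank_map_inf_ker A wK
  have e3 : finrank K (span K C) ≤ finrank K (A ⊓ LinearMap.ker wK : Submodule K V) := by
    refine finrank_mono ?_
    rw [span_le]
    intro c hc
    refine ⟨by rw [hA]; exact subset_span (Or.inr hc), ?_⟩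
    rw [SetLike.mem_coe, LinearMap.mem_ker, hw, Function.comp_apply, mkQ_apply, Quotient.mk_eq_zero, hU]
    exact subset_span ⟨c, hc, rfl⟩
  -- (3)
  obtain ⟨S, hS⟩ : ∃ S, S = span F (g '' A) := ⟨_, rfl⟩
  have e4 := finrank_map_inf_ker S U.mkQ
  have e5 : finrank F (S ⊓ LinearMap.ker U.mkQ : Submodule F W) ≤ finrank K (span K C) := by
    refine (Submodule.finrank_mono inf_le_right).trans ?_
    rw [ker_mkQ, hU]
    exact finrank_span_image_le g C
  have e6 := hg A
  rw [← hS] at e6
  -- (4)
  have e7 : finrank F (S.map U.mkQ) ≤ finrank F (span F (U.mkQ ∘ g '' T)) := by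
    refine finrank_mono ?_
    rw [hS, map_span, span_le]
    rintro _ ⟨_, ⟨a, ha, rfl⟩, rfl⟩
    rw [SetLike.mem_coe]
    rw [SetLike.mem_coe, hA] at ha
    induction ha using span_induction with
    | mem x hx =>
      rcases hx with hx | hx
      · exact subset_span ⟨x, hx, rfl⟩
      · have : U.mkQ (g x) = 0 := by
          rw [mkQ_apply, Quotient.mk_eq_zero, hU]
          exact subset_span ⟨x, hx, rfl⟩
        rw [this]
        exact zero_mem _
    | zero => simp
    | add x y _ _ hx hy =>
      rw [map_add, map_add]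
      exact add_mem hx hy
    | smul a x _ hx =>
      rw [map_smul, ← algebraMap_smul F a (g x), map_smul]
      exact smul_mem _ _ hx
  omega

end tower

section base

variable (K F : Type*) [Field K] [Field F] [Algebra K F] {ι : Type*} [Fintype ι]

/-- base change of vectors -/
noncomputable def bc : (ι → K) →ₗ[K] (ι → F) := (Algebra.linearMap K F).compLeft ι

@[simp] theorem bc_apply (x : ι → K) (i : ι) : bc K F x i = algebraMap K F (x i) := rfl

/-- the projection from `e` -/
noncomputable def pr (e : ι → F) : (ι → K) →ₗ[K] ((ι → F) ⧸ span F {e}) :=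
  ((span F {e}).mkQ.restrictScalars K) ∘ₗ bc K F

theorem pr_apply (e : ι → F) (x : ι → K) : pr K F e x = (span F {e}).mkQ (bc K F x) := rfl

theorem pr_bound (e : ι → F) (A : Submodule K (ι → K)) :
    finrank K A ≤ finrank F (span F (pr K F e '' A)) + 1 := by
  let B := finBasis K A
  obtain ⟨S, hS⟩ : ∃ S, S = span F (bc K F '' (A : Set (ι → K))) := ⟨_, rfl⟩
  have h1 : finrank K A ≤ finrank F S := by
    have h2 : LinearIndependent K (fun i => (B i : ι → K)) :=
      B.linearIndependent.map' A.subtype (ker_subtype A)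
    have h3 : LinearIndependent F (fun i => algebraMap K F ∘ (B i : ι → K)) :=
      linearIndependent_algebraMap_comp_iff.2 h2
    have h4 := finrank_span_eq_card h3
    rw [Fintype.card_fin] at h4
    rw [← h4, hS]
    refine finrank_mono (span_mono ?_)
    rintro _ ⟨i, rfl⟩
    exact ⟨B i, (B i).2, rfl⟩
  have h2 := finrank_map_inf_ker S (span F {e}).mkQ
  have h3 : finrank F (S ⊓ LinearMap.ker (span F {e}).mkQ : Submodule F (ι → F)) ≤ 1 := by
    refine (Submodule.finrank_mono inf_le_right).trans ?_
    rw [ker_mkQ]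
    exact (finrank_span_le_card ({e} : Set (ι → F))).trans (by simp)
  have h4 : S.map (span F {e}).mkQ = span F (pr K F e '' A) := by
    rw [hS, map_span, ← image_comp]
    rfl
  rw [h4] at h2
  omega

variable [Finite K]

/-- the matroid on `K ^ ι`, projected from the point `e` -/
noncomputable def PM (e : ι → F) : Matroid (ι → K) := linMatroid F (pr K F e) univ finite_univ

theorem PM_rep (e : ι → F) : Rep F (PM K F e) (pr K F e) := linMatroid_rep _ _ _

theorem PM_E (e : ι → F) : (PM K F e).E = univ := rfl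

/-- a minor of rank `m` of the projected matroid has less than `|K| ^ (m + 1)` points -/
theorem PM_minor (e : ι → F) {N : Matroid (ι → K)} (hN : N ≤m PM K F e) {X : Set (ι → K)}
    (hX : PairsIndep N X) : X.ncard + 1 ≤ Nat.card K ^ (rk N N.E + 1) := by
  obtain ⟨C, D, hC, hD, -, rfl⟩ := hN.exists_eq_contract_delete_disjoint
  have hr := Rep.minor (PM_rep K F e) C D hC
  obtain ⟨N, hN'⟩ : ∃ N, N = ((PM K F e).contract C).delete D := ⟨_, rfl⟩
  rw [← hN'] at hX hr ⊢
  have : N.Finite := ⟨Set.toFinite _⟩
  have h1 := Rep.rk_eq hr (X := N.E) subset_rfl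
  rw [h1]
  have h2 := quot_bound (K := K) (F := F) (pr K F e) (pr_bound K F e) C N.E
  obtain ⟨Y, hY⟩ : ∃ Y, Y = span K ((span F (pr K F e '' C)).mkQ ∘ (pr K F e) '' N.E) := ⟨_, rfl⟩
  have hfd : FiniteDimensional K Y := by
    rw [hY]
    exact FiniteDimensional.span_of_finite K (Set.toFinite _)
  have h3 : (Y : Set (((ι → F) ⧸ span F {e}) ⧸ span F (pr K F e '' C))).ncard =
      Nat.card K ^ finrank K Y := ncard_submodule Y
  have hYfin : (Y : Set (((ι → F) ⧸ span F {e}) ⧸ span F (pr K F e '' C))).Finite := by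
    have : Finite Y := Module.finite_of_finite K
    exact Set.toFinite _
  have h4 := card_le_of_mem hr hX hYfin (zero_mem Y) (fun x hx => by
    rw [hY]
    exact subset_span ⟨x, hX.1 hx, rfl⟩)
  rw [h3] at h4
  refine h4.trans (Nat.pow_le_pow_right Nat.card_pos ?_)
  rw [hY]
  exact h2

end base

end Pool.Agent.Y926.KS
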